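import Mathlib

/-! # Numerical data for the positivity of `(q;q)_∞ / Ψ(-q², q)` -/

namespace H125d.FT

/-- the numbers of partitions of `0, ..., 60` -/
def ML : List ℤ := [1, 1, 2, 3, 5, 7, 11, 15, 22, 30, 42, 56, 77, 101, 135, 176, 231, 297, 385, 490, 627, 792,
  1002, 1255, 1575, 1958, 2436, 3010, 3718, 4565, 5604, 6842, 8349, 10143, 12310, 14883, 17977,
  21637, 26015, 31185, 37338, 44583, 53174, 63261, 75175, 89134, 105558, 124754, 147273, 173525,
  204226, 239943, 281589, 329931, 386155, 451276, 526823, 614154, 715220, 831820, 966467]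

/-- the coefficients `x'(1), ..., x'(60)` -/
def xs : List ℤ := [0, 0, 0, 0, 0, 0, 1, 2, 4, 6, 10, 12, 20, 26, 36, 48, 66, 84, 114, 144, 188, 240, 308, 384,
  490, 608, 762, 942, 1170, 1432, 1768, 2152, 2630, 3190, 3874, 4666, 5640, 6764, 8122, 9704,
  11598, 13792, 16418, 19450, 23046, 27216, 32128, 37798, 44474, 52162, 61156, 71526, 83604,
  97488, 113634, 132154, 153604, 178204, 206598, 239084]

/-- Scalar product of lists. -/
def dot : List ℤ → List ℤ → ℤ
  | a :: as, b :: bs => a * b + dot as bs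
  | _, _ => 0

/-- The list `[w(n), ..., w(0)]`. -/
def W : ℕ → List ℤ
  | 0 => [1]
  | n + 1 => dot xs (W n) :: W n

/-- The renewal sequence of `x'`. -/
def w (n : ℕ) : ℤ := (W n).headD 0

/-- coefficient of `X^k` in the false theta function, computable form -/
def psiC (k : ℕ) : ℤ :=
  (∑ n ∈ Finset.range (k + 1), if n * (3 * n + 1) = 2 * k then (-1 : ℤ) ^ (n * (n + 1) / 2) else 0)
  - ∑ m ∈ Finset.range (k + 1),
      if (m + 1) * (3 * m + 2) = 2 * k then (-1 : ℤ) ^ (m * (m + 1) / 2) else 0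

/-- the first coefficients as a list -/
def psiL : List ℤ := [1, -1, -1, 0, 0, 1, 0, -1, 0, 0, 0, 0, 1, 0, 0, 1, 0, 0, 0, 0, 0, 0, -1, 0, 0, 0, 1, 0, 0, 0,
  0, 0, 0, 0, 0, -1, 0, 0, 0, 0, -1, 0, 0, 0, 0, 0, 0, 0, 0, 0, 0, 1, 0, 0, 0, 0, 0, -1, 0, 0, 0]

/-- coefficients of the product of `ML` with the false theta function -/
def fC (k : ℕ) : ℤ := ∑ i ∈ Finset.range (k + 1), ML.getD i 0 * psiL.getD (k - i) 0

set_option maxRecDepth 100000 in
theorem psiC_eq : ∀ k ∈ Finset.range 61, psiC k = psiL.getD k 0 := by decide +kernel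

set_option maxRecDepth 100000 in
theorem fC_eq : ∀ k ∈ Finset.range 60, -fC (k + 1) = xs.getD k 0 + if k = 6 then 1 else 0 := by
  decide +kernel

theorem ML_sum : ML.sum = 6639349 := by decide +kernel

theorem ML_nonneg : ∀ i ∈ ML, (0:ℤ) ≤ i := by decide +kernel

theorem xs_nonneg : ∀ i ∈ xs, (0:ℤ) ≤ i := by decide +kernel

set_option maxRecDepth 100000 in
theorem w_pos_small : ∀ j ∈ Finset.range 80, 0 < w (j + 7) := by decide +kernel

set_option maxRecDepth 100000 in
theorem w_ratio_small : ∀ j ∈ Finset.range 62, 3 * w (j + 15) ≤ 2 * w (j + 16) := by decide +kernel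

theorem w54 : 8 * 6639349 ≤ w 54 := by decide +kernel

end H125d.FT
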