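import Pool.Agent.H125d.FT1

/-! # The comparison argument -/

namespace H125d.FT

/-- the coefficient `x'(k+1)` -/
def xx (k : ℕ) : ℤ := xs.getD k 0

theorem xx_nonneg (k : ℕ) : 0 ≤ xx k := by
  unfold xx
  rcases lt_or_ge k xs.length with h | h
  · rw [List.getD_eq_getElem _ _ h]
    exact xs_nonneg _ (List.getElem_mem h)
  · rw [List.getD_eq_default _ _ h]

theorem xx_zero (k : ℕ) (hk : 60 ≤ k) : xx k = 0 := by
  unfold xx
  apply List.getD_eq_default
  have : xs.length = 60 := by decide
  omega

theorem W_length (n : ℕ) : (W n).length = n + 1 := by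
  induction n with
  | zero => rfl
  | succ n ih => simp [W, ih]

theorem W_getD (n j : ℕ) (hj : j ≤ n) : (W n).getD j 0 = w (n - j) := by
  induction n generalizing j with
  | zero =>
    have : j = 0 := by omega
    subst this; rfl
  | succ n ih =>
    cases j with
    | zero => rfl
    | succ j =>
      have : n + 1 - (j + 1) = n - j := by omega
      rw [this, ← ih j (by omega)]
      rfl

theorem dot_eq (as bs : List ℤ) :
    dot as bs = ∑ j ∈ Finset.range bs.length, as.getD j 0 * bs.getD j 0 := by
  induction bs generalizing as with
  | nil => cases as <;> rfl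
  | cons b bs ih =>
    cases as with
    | nil => simp [dot]
    | cons a as =>
      rw [List.length_cons, Finset.sum_range_succ']
      simp only [dot, List.getD_cons_succ, List.getD_cons_zero]
      rw [ih as]; ring

theorem w_zero : w 0 = 1 := rfl

theorem w_succ (n : ℕ) : w (n + 1) = ∑ j ∈ Finset.range (n + 1), xx j * w (n - j) := by
  have h : w (n + 1) = dot xs (W n) := rfl
  rw [h, dot_eq, W_length]
  refine Finset.sum_congr rfl fun j hj => ?_
  rw [W_getD n j (by have := Finset.mem_range.mp hj; omega)]
  rfl

theorem w_succ' (n : ℕ) (hn : 59 ≤ n) :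
    w (n + 1) = ∑ j ∈ Finset.range 60, xx j * w (n - j) := by
  rw [w_succ]
  symm
  apply Finset.sum_subset
  · intro x hx; simp only [Finset.mem_range] at hx ⊢; omega
  · intro x _ hx
    rw [xx_zero x (by simpa using hx), zero_mul]

theorem w_ratio (j : ℕ) (hj : 15 ≤ j) : 3 * w j ≤ 2 * w (j + 1) := by
  induction j using Nat.strong_induction_on with
  | _ j ih =>
    rcases lt_or_ge j 77 with h | h
    · have := w_ratio_small (j - 15) (Finset.mem_range.mpr (by omega))
      have e1 : j - 15 + 15 = j := by omega
      have e2 : j - 15 + 16 = j + 1 := by omega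
      rwa [e1, e2] at this
    · obtain ⟨i, rfl⟩ : ∃ i, j = i + 1 := ⟨j - 1, by omega⟩
      rw [w_succ' i (by omega), w_succ' (i + 1) (by omega), Finset.mul_sum, Finset.mul_sum]
      apply Finset.sum_le_sum
      intro k hk
      have hk' := Finset.mem_range.mp hk
      have h1 := ih (i - k) (by omega) (by omega)
      have e : i + 1 - k = i - k + 1 := by omega
      rw [e]
      nlinarith [mul_le_mul_of_nonneg_left h1 (xx_nonneg k)]

theorem w_pos (n : ℕ) (hn : 7 ≤ n) : 0 < w n := by
  induction n using Nat.strong_induction_on with
  | _ n ih =>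
    rcases lt_or_ge n 87 with h | h
    · have := w_pos_small (n - 7) (Finset.mem_range.mpr (by omega))
      have e1 : n - 7 + 7 = n := by omega
      rwa [e1] at this
    · obtain ⟨i, rfl⟩ : ∃ i, n = i + 1 := ⟨n - 1, by omega⟩
      have h1 := w_ratio i (by omega)
      have h2 := ih i (by omega) (by omega)
      linarith

theorem w_geom (t : ℕ) : 4 * 13278698 * (3 / 2 : ℚ) ^ t ≤ (w (54 + t) : ℚ) := by
  induction t with
  | zero =>
    have h := w54
    have h' : ((8 * 6639349 : ℤ) : ℚ) ≤ (w 54 : ℚ) := by exact_mod_cast h
    simp only [pow_zero, mul_one, add_zero]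
    push_cast at h'
    linarith
  | succ t ih =>
    have h := w_ratio (54 + t) (by omega)
    have h' : (3 * w (54 + t) : ℚ) ≤ 2 * w (54 + t + 1) := by exact_mod_cast h
    have e : 54 + (t + 1) = 54 + t + 1 := by omega
    rw [e, pow_succ]
    linarith

theorem geom_le (T : ℕ) : ∑ t ∈ Finset.range T, (2 / 3 : ℚ) ^ t ≤ 3 := by
  rw [geom_sum_eq (by norm_num)]
  have : (0:ℚ) < (2 / 3) ^ T := by positivity
  rw [div_le_iff_of_neg (by norm_num)]
  linarith

theorem main (b g f : ℕ → ℤ) (hb0 : b 0 = 1)
    (hrec : ∀ m, b (m + 1) = g (m + 1) - ∑ k ∈ Finset.range (m + 1), f (k + 1) * b (m - k))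
    (hf : ∀ k < 60, -f (k + 1) = xx k + if k = 6 then 1 else 0)
    (hfA : ∀ k, |f k| ≤ 13278698) (hg0 : ∀ k, 1 ≤ k → k ≤ 60 → g k = 0)
    (hgA : ∀ k, |g k| ≤ 13278698) (m : ℕ) :
    0 ≤ b m ∧ ∀ i ≤ m, w i * b (m - i) ≤ b m := by
  induction m using Nat.strong_induction_on with
  | _ m ih =>
    cases m with
    | zero =>
      refine ⟨by rw [hb0]; norm_num, ?_⟩
      intro i hi
      have : i = 0 := by omega
      subst this
      simp [w_zero]
    | succ m =>
      have hbn : ∀ k, k ≤ m → 0 ≤ b k := fun k hk => (ih k (by omega)).1
      -- the key inequality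
      have key : ∑ k ∈ Finset.range (m + 1), xx k * b (m - k) ≤ b (m + 1) := by
        rcases lt_or_ge m 60 with hm | hm
        · rw [hrec m, hg0 (m + 1) (by omega) (by omega), zero_sub, ← Finset.sum_neg_distrib]
          apply Finset.sum_le_sum
          intro k hk
          have hk' := Finset.mem_range.mp hk
          have h1 := hf k (by omega)
          have h2 := hbn (m - k) (by omega)
          have h3 : -(f (k + 1) * b (m - k)) = (-f (k + 1)) * b (m - k) := by ring
          rw [h3, h1]
          split_ifs
          · nlinarith
          · simp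
        · obtain ⟨T, hT⟩ : ∃ T, m + 1 = 60 + T := ⟨m - 59, by omega⟩
          have hsplit : ∀ F : ℕ → ℤ, ∑ k ∈ Finset.range (m + 1), F k =
              ∑ k ∈ Finset.range 60, F k + ∑ t ∈ Finset.range T, F (60 + t) := by
            intro F; rw [hT, Finset.sum_range_add]
          have h6 : 0 ≤ b (m - 6) := hbn _ (by omega)
          have hP := (ih (m - 6) (by omega)).2
          -- first part
          have hA : ∑ k ∈ Finset.range 60, -(f (k + 1) * b (m - k)) =
              ∑ k ∈ Finset.range 60, xx k * b (m - k) + b (m - 6) := by
            have h1 : ∀ k ∈ Finset.range 60, -(f (k + 1) * b (m - k)) =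
                xx k * b (m - k) + if k = 6 then b (m - 6) else 0 := by
              intro k hk
              have h3 : -(f (k + 1) * b (m - k)) = (-f (k + 1)) * b (m - k) := by ring
              rw [h3, hf k (Finset.mem_range.mp hk)]
              split_ifs with h
              · subst h; ring
              · ring
            rw [Finset.sum_congr rfl h1, Finset.sum_add_distrib]
            simp
          have hB : ∑ k ∈ Finset.range (m + 1), xx k * b (m - k) =
              ∑ k ∈ Finset.range 60, xx k * b (m - k) := by
            rw [hsplit]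
            have : ∑ t ∈ Finset.range T, xx (60 + t) * b (m - (60 + t)) = 0 :=
              Finset.sum_eq_zero fun t _ => by rw [xx_zero _ (by omega), zero_mul]
            rw [this, add_zero]
          -- the tail
          have hC : (∑ t ∈ Finset.range T, f (60 + t + 1) * b (m - (60 + t)) : ℤ) ≤
              (3 / 4 : ℚ) * b (m - 6) := by
            push_cast
            calc (∑ t ∈ Finset.range T, (f (60 + t + 1) : ℚ) * (b (m - (60 + t)) : ℚ))
                ≤ ∑ t ∈ Finset.range T, (2 / 3 : ℚ) ^ t * ((b (m - 6) : ℚ) / 4) := by
                  apply Finset.sum_le_sum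
                  intro t ht
                  have ht' := Finset.mem_range.mp ht
                  have h1 := hP (54 + t) (by omega)
                  have e : m - 6 - (54 + t) = m - (60 + t) := by omega
                  rw [e] at h1
                  have h2 : (0:ℤ) ≤ b (m - (60 + t)) := hbn _ (by omega)
                  have h2' : (0:ℚ) ≤ (b (m - (60 + t)) : ℚ) := by exact_mod_cast h2
                  have h1' : ((w (54 + t) : ℚ)) * (b (m - (60 + t)) : ℚ) ≤ (b (m - 6) : ℚ) := by
                    exact_mod_cast h1
                  have h3 := w_geom t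
                  have h4 : (f (60 + t + 1) : ℚ) ≤ 13278698 := by
                    have := (abs_le.mp (hfA (60 + t + 1))).2
                    exact_mod_cast this
                  have h5 : (f (60 + t + 1) : ℚ) * (b (m - (60 + t)) : ℚ) ≤
                      13278698 * (b (m - (60 + t)) : ℚ) := mul_le_mul_of_nonneg_right h4 h2'
                  have h7 : 4 * 13278698 * (3 / 2 : ℚ) ^ t * (b (m - (60 + t)) : ℚ) ≤
                      (b (m - 6) : ℚ) := (mul_le_mul_of_nonneg_right h3 h2').trans h1'
                  have h8 : (2 / 3 : ℚ) ^ t * (3 / 2 : ℚ) ^ t = 1 := by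
                    rw [← mul_pow]; norm_num
                  have h9 : (0:ℚ) < (2 / 3 : ℚ) ^ t := by positivity
                  have h10 := mul_le_mul_of_nonneg_left h7 h9.le
                  have h11 : (2 / 3 : ℚ) ^ t * (4 * 13278698 * (3 / 2 : ℚ) ^ t *
                      (b (m - (60 + t)) : ℚ)) = 4 * (13278698 * (b (m - (60 + t)) : ℚ)) := by
                    calc _ = ((2 / 3 : ℚ) ^ t * (3 / 2 : ℚ) ^ t) *
                        (4 * (13278698 * (b (m - (60 + t)) : ℚ))) := by ring
                      _ = _ := by rw [h8, one_mul]
                  rw [h11] at h10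
                  linarith
              _ = (∑ t ∈ Finset.range T, (2 / 3 : ℚ) ^ t) * ((b (m - 6) : ℚ) / 4) := by
                  rw [Finset.sum_mul]
              _ ≤ 3 * ((b (m - 6) : ℚ) / 4) := by
                  apply mul_le_mul_of_nonneg_right (geom_le T)
                  have : (0:ℚ) ≤ (b (m - 6) : ℚ) := by exact_mod_cast h6
                  positivity
              _ = (3 / 4 : ℚ) * b (m - 6) := by ring
          have hD : -(1 / 4 : ℚ) * b (m - 6) ≤ (g (m + 1) : ℚ) := by
            have h1 := hP (m - 6) le_rfl
            rw [Nat.sub_self, hb0, mul_one] at h1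
            have h2 := w_geom (m - 60)
            have e : 54 + (m - 60) = m - 6 := by omega
            rw [e] at h2
            have h3 : (1:ℚ) ≤ (3 / 2 : ℚ) ^ (m - 60) := one_le_pow₀ (by norm_num)
            have h4 : (w (m - 6) : ℚ) ≤ (b (m - 6) : ℚ) := by exact_mod_cast h1
            have h5 : (-13278698 : ℚ) ≤ (g (m + 1) : ℚ) := by
              have := (abs_le.mp (hgA (m + 1))).1
              exact_mod_cast this
            linarith
          have hE : b (m + 1) = g (m + 1) + ∑ k ∈ Finset.range 60, -(f (k + 1) * b (m - k)) -
              ∑ t ∈ Finset.range T, f (60 + t + 1) * b (m - (60 + t)) := by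
            rw [hrec m, hsplit, Finset.sum_neg_distrib]; ring
          rw [hB]
          have hF : ((∑ k ∈ Finset.range 60, xx k * b (m - k) : ℤ) : ℚ) ≤ (b (m + 1) : ℚ) := by
            rw [hE, hA]
            rw [Int.cast_sub, Int.cast_add, Int.cast_add]
            linarith
          exact_mod_cast hF
      have hnn : 0 ≤ b (m + 1) := by
        refine le_trans (Finset.sum_nonneg fun k hk => ?_) key
        exact mul_nonneg (xx_nonneg k) (hbn _ (by omega))
      refine ⟨hnn, ?_⟩
      intro i hi
      cases i with
      | zero => simp [w_zero]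
      | succ i =>
        have e : m + 1 - (i + 1) = m - i := by omega
        rw [e, w_succ, Finset.sum_mul]
        refine le_trans ?_ key
        calc ∑ j ∈ Finset.range (i + 1), xx j * w (i - j) * b (m - i)
            ≤ ∑ j ∈ Finset.range (i + 1), xx j * b (m - j) := by
              apply Finset.sum_le_sum
              intro j hj
              have hj' := Finset.mem_range.mp hj
              have h1 := (ih (m - j) (by omega)).2 (i - j) (by omega)
              have e2 : m - j - (i - j) = m - i := by omega
              rw [e2] at h1
              rw [mul_assoc]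
              exact mul_le_mul_of_nonneg_left h1 (xx_nonneg j)
          _ ≤ ∑ j ∈ Finset.range (m + 1), xx j * b (m - j) := by
              apply Finset.sum_le_sum_of_subset_of_nonneg
              · intro x hx; simp only [Finset.mem_range] at hx ⊢; omega
              · intro k _ _
                exact mul_nonneg (xx_nonneg k) (hbn _ (by omega))

end H125d.FT
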