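import Pool.Agent.H125d.FT2

/-! # The power series -/

namespace H125d.FT

open PowerSeries
open scoped PowerSeries.WithPiTopology

/-- The false theta function
`Ψ(a,b) = ∑_{n ≥ 0} a^C(n+1,2) b^C(n,2) - ∑_{n < 0} a^C(n+1,2) b^C(n,2)`. The negative index is
`n = -1 - m`, for which `C(n+1,2) = m(m+1)/2 = C(m+1,2)` and
`C(n,2) = (m+1)(m+2)/2 = C(m+2,2)`. -/
noncomputable def falseTheta (a b : ℤ⟦X⟧) : ℤ⟦X⟧ :=
  (∑' n : ℕ, a ^ ((n + 1).choose 2) * b ^ (n.choose 2)) -
    ∑' m : ℕ, a ^ ((m + 1).choose 2) * b ^ ((m + 2).choose 2)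

/-- The infinite product `(q;q)_∞ = ∏_{k ≥ 1} (1 - q^k)`. -/
noncomputable def eulerProduct : ℤ⟦X⟧ := ∏' k : ℕ, (1 - X ^ (k + 1))

theorem hasSum_mono (e : ℕ → ℕ) (c : ℕ → ℤ) (he : ∀ n, n ≤ e n) :
    HasSum (fun n => (C (c n) : ℤ⟦X⟧) * X ^ (e n))
      (PowerSeries.mk fun k => ∑ n ∈ Finset.range (k + 1), if e n = k then c n else 0) := by
  rw [HasSum, WithPiTopology.tendsto_iff_coeff_tendsto]
  intro k
  apply tendsto_atTop_of_eventually_const (i₀ := Finset.range (k + 1))
  intro s hs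
  rw [map_sum, coeff_mk]
  have h1 : ∀ n, coeff k ((C (c n) : ℤ⟦X⟧) * X ^ (e n)) = if e n = k then c n else 0 := by
    intro n
    rw [coeff_C_mul, coeff_X_pow]
    by_cases h : e n = k
    · simp [h]
    · rw [if_neg h, if_neg (fun h' => h h'.symm), mul_zero]
  simp only [h1]
  symm
  apply Finset.sum_subset hs
  intro n _ hn
  rw [if_neg]
  intro h
  apply hn
  rw [Finset.mem_range]
  have := he n
  omega

theorem choose_two_mul (n : ℕ) : 2 * (n + 1).choose 2 = n * (n + 1) := by
  rw [Nat.choose_two_right]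
  have h : (n + 1) * (n + 1 - 1) = n * (n + 1) := by
    rw [Nat.add_sub_cancel]; ring
  rw [h]
  exact Nat.mul_div_cancel' (Nat.even_mul_succ_self n).two_dvd

theorem term1 (n : ℕ) : (-(X : ℤ⟦X⟧) ^ 2) ^ ((n + 1).choose 2) * X ^ (n.choose 2) =
    C ((-1 : ℤ) ^ ((n + 1).choose 2)) * X ^ (2 * (n + 1).choose 2 + n.choose 2) := by
  rw [neg_pow, ← pow_mul, pow_add, map_pow, map_neg, map_one]; ring

theorem term2 (m : ℕ) : (-(X : ℤ⟦X⟧) ^ 2) ^ ((m + 1).choose 2) * X ^ ((m + 2).choose 2) =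
    C ((-1 : ℤ) ^ ((m + 1).choose 2)) * X ^ (2 * (m + 1).choose 2 + (m + 2).choose 2) := by
  rw [neg_pow, ← pow_mul, pow_add, map_pow, map_neg, map_one]; ring

theorem exp1 (n : ℕ) : 2 * (2 * (n + 1).choose 2 + n.choose 2) = n * (3 * n + 1) := by
  have h1 := choose_two_mul n
  have h2 : 2 * n.choose 2 + 2 * n = 2 * (n + 1).choose 2 := by
    rw [Nat.choose_succ_succ' n 1, Nat.choose_one_right]; ring
  nlinarith

theorem exp2 (m : ℕ) : 2 * (2 * (m + 1).choose 2 + (m + 2).choose 2) =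
    (m + 1) * (3 * m + 2) := by
  have h1 := choose_two_mul m
  have h2 := choose_two_mul (m + 1)
  have h3 : (m + 1 + 1) = m + 2 := rfl
  rw [h3] at h2
  nlinarith

theorem coeff_falseTheta (k : ℕ) : coeff k (falseTheta (-X ^ 2) X) = psiC k := by
  have h1 := (hasSum_mono (fun n => 2 * (n + 1).choose 2 + n.choose 2)
    (fun n => (-1 : ℤ) ^ ((n + 1).choose 2)) (fun n => by
      have := exp1 n; nlinarith)).tsum_eq
  have h2 := (hasSum_mono (fun m => 2 * (m + 1).choose 2 + (m + 2).choose 2)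
    (fun n => (-1 : ℤ) ^ ((n + 1).choose 2)) (fun n => by
      have := exp2 n; nlinarith)).tsum_eq
  unfold falseTheta
  simp only [term1, term2]
  rw [h1, h2, map_sub, coeff_mk, coeff_mk]
  unfold psiC
  congr 1
  · refine Finset.sum_congr rfl fun n _ => ?_
    have he := exp1 n
    have hc : (n + 1).choose 2 = n * (n + 1) / 2 := by
      have := choose_two_mul n; omega
    by_cases h : 2 * (n + 1).choose 2 + n.choose 2 = k
    · rw [if_pos h, if_pos (by rw [← he, h]), hc]
    · rw [if_neg h, if_neg (by rw [← he]; omega)]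
  · refine Finset.sum_congr rfl fun n _ => ?_
    have he := exp2 n
    have hc : (n + 1).choose 2 = n * (n + 1) / 2 := by
      have := choose_two_mul n; omega
    by_cases h : 2 * (n + 1).choose 2 + (n + 2).choose 2 = k
    · rw [if_pos h, if_pos (by rw [← he, h]), hc]
    · rw [if_neg h, if_neg (by rw [← he]; omega)]

theorem abs_sum_le_one (N : ℕ) (p : ℕ → Prop) [DecidablePred p] (c : ℕ → ℤ)
    (hc : ∀ n, |c n| ≤ 1) (hp : ∀ a b, p a → p b → a = b) :
    |∑ n ∈ Finset.range N, if p n then c n else 0| ≤ 1 := by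
  rw [← Finset.sum_filter]
  have hcard : ((Finset.range N).filter p).card ≤ 1 := by
    rw [Finset.card_le_one]
    intro a ha b hb
    exact hp a b (Finset.mem_filter.mp ha).2 (Finset.mem_filter.mp hb).2
  calc |∑ n ∈ (Finset.range N).filter p, c n|
      ≤ ∑ n ∈ (Finset.range N).filter p, |c n| := Finset.abs_sum_le_sum_abs _ _
    _ ≤ ∑ n ∈ (Finset.range N).filter p, 1 := Finset.sum_le_sum fun n _ => hc n
    _ = (((Finset.range N).filter p).card : ℤ) := by simp
    _ ≤ 1 := by exact_mod_cast hcard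

theorem psiC_abs (k : ℕ) : |psiC k| ≤ 2 := by
  unfold psiC
  have h1 := abs_sum_le_one (k + 1) (fun n => n * (3 * n + 1) = 2 * k)
    (fun n => (-1 : ℤ) ^ (n * (n + 1) / 2)) (fun n => by simp [abs_pow]) (by
      intro a b ha hb
      by_contra hne
      rcases lt_or_gt_of_ne hne with h | h
      · nlinarith
      · nlinarith)
  have h2 := abs_sum_le_one (k + 1) (fun m => (m + 1) * (3 * m + 2) = 2 * k)
    (fun n => (-1 : ℤ) ^ (n * (n + 1) / 2)) (fun n => by simp [abs_pow]) (by
      intro a b ha hb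
      by_contra hne
      rcases lt_or_gt_of_ne hne with h | h
      · nlinarith
      · nlinarith)
  have h3 := abs_le.mp h1
  have h4 := abs_le.mp h2
  rw [abs_le]
  constructor <;> linarith [h3.1, h3.2, h4.1, h4.2]

theorem coeff_euler_abs (k : ℕ) : |coeff k eulerProduct| ≤ 1 := by
  unfold eulerProduct
  rw [WithPiTopology.tprod_one_sub_X_pow]
  by_cases h : k ∈ Set.range pentagonal
  · obtain ⟨j, rfl⟩ := h
    rw [coeff_pentagonalSeries_pentagonal]
    rcases Int.even_or_odd j with hj | hj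
    · simp [Int.negOnePow_even _ hj]
    · simp [Int.negOnePow_odd _ hj]
  · rw [coeff_pentagonalSeries_eq_zero ℤ h]; simp

/-- coefficients of the Euler product, computable form -/
def eC (k : ℕ) : ℤ :=
  (∑ n ∈ Finset.range (k + 1), if n * (3 * n + 1) = 2 * k then (-1 : ℤ) ^ n else 0)
  - ∑ m ∈ Finset.range (k + 1), if (m + 1) * (3 * m + 2) = 2 * k then (-1 : ℤ) ^ m else 0

/-- the first coefficients as a list -/
def eL : List ℤ := [1, -1, -1, 0, 0, 1, 0, 1, 0, 0, 0, 0, -1, 0, 0, -1, 0, 0, 0, 0, 0, 0, 1, 0, 0, 0, 1, 0, 0, 0,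
  0, 0, 0, 0, 0, -1, 0, 0, 0, 0, -1, 0, 0, 0, 0, 0, 0, 0, 0, 0, 0, 1, 0, 0, 0, 0, 0, 1, 0, 0, 0]

/-- coefficients of the product of `ML` with the Euler product -/
def gC (k : ℕ) : ℤ := ∑ i ∈ Finset.range (k + 1), ML.getD i 0 * eL.getD (k - i) 0

set_option maxRecDepth 100000 in
theorem eC_eq : ∀ k ∈ Finset.range 61, eC k = eL.getD k 0 := by decide +kernel

set_option maxRecDepth 100000 in
theorem gC_eq : ∀ k ∈ Finset.range 60, gC (k + 1) = 0 := by decide +kernel

theorem coeff_euler (k : ℕ) : coeff k eulerProduct = eC k := by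
  unfold eulerProduct
  rw [WithPiTopology.tprod_one_sub_X_pow]
  have h1 := hasSum_mono (fun n => 2 * (n + 1).choose 2 + n.choose 2)
    (fun n => (-1 : ℤ) ^ n) (fun n => by have := exp1 n; nlinarith)
  have h2 := hasSum_mono (fun m => 2 * (m + 1).choose 2 + (m + 2).choose 2)
    (fun n => (-1 : ℤ) ^ n) (fun n => by have := exp2 n; nlinarith)
  have h3 := WithPiTopology.hasSum_pow_pentagonal_sub_pentagonalSeries ℤ
  have h4 := h1.sub h2
  have h5 : (fun n : ℕ => (-1 : ℤ⟦X⟧) ^ n * (X ^ pentagonal (-(n : ℤ)) - X ^ pentagonal ((n : ℤ) + 1)))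
      = fun n : ℕ => C ((-1 : ℤ) ^ n) * X ^ (2 * (n + 1).choose 2 + n.choose 2) -
        C ((-1 : ℤ) ^ n) * X ^ (2 * (n + 1).choose 2 + (n + 2).choose 2) := by
    funext n
    have e1 : pentagonal (-(n : ℤ)) = 2 * (n + 1).choose 2 + n.choose 2 := by
      have a := two_mul_natCast_pentagonal_neg (n : ℤ)
      have b := exp1 n
      zify at b ⊢
      linarith
    have e2 : pentagonal ((n : ℤ) + 1) = 2 * (n + 1).choose 2 + (n + 2).choose 2 := by
      have a := two_mul_natCast_pentagonal ((n : ℤ) + 1)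
      have b := exp2 n
      zify at b ⊢
      linarith
    rw [e1, e2, map_pow, map_neg, map_one]; ring
  rw [h5] at h3
  rw [h3.unique h4, map_sub, coeff_mk, coeff_mk]
  unfold eC
  congr 1
  · refine Finset.sum_congr rfl fun n _ => ?_
    have he := exp1 n
    by_cases h : 2 * (n + 1).choose 2 + n.choose 2 = k
    · rw [if_pos h, if_pos (by rw [← he, h])]
    · rw [if_neg h, if_neg (by rw [← he]; omega)]
  · refine Finset.sum_congr rfl fun n _ => ?_
    have he := exp2 n
    by_cases h : 2 * (n + 1).choose 2 + (n + 2).choose 2 = k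
    · rw [if_pos h, if_pos (by rw [← he, h])]
    · rw [if_neg h, if_neg (by rw [← he]; omega)]

/-- The multiplier. -/
noncomputable def Mps : ℤ⟦X⟧ := PowerSeries.mk fun j => ML.getD j 0

theorem coeff_M_mul (φ : ℤ⟦X⟧) (k : ℕ) :
    coeff k (Mps * φ) = ∑ i ∈ Finset.range (k + 1), ML.getD i 0 * coeff (k - i) φ := by
  rw [coeff_mul, Finset.Nat.sum_antidiagonal_eq_sum_range_succ
    (fun i j => coeff i Mps * coeff j φ)]
  simp [Mps]

theorem getD_sum_le (l : List ℤ) (hl : ∀ x ∈ l, (0:ℤ) ≤ x) (n : ℕ) :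
    ∑ i ∈ Finset.range n, l.getD i 0 ≤ l.sum := by
  induction l generalizing n with
  | nil => simp
  | cons a l ih =>
    have ha : 0 ≤ a := hl a (by simp)
    have hl' : ∀ x ∈ l, (0:ℤ) ≤ x := fun x hx => hl x (by simp [hx])
    cases n with
    | zero =>
      simp only [Finset.range_zero, Finset.sum_empty]
      exact List.sum_nonneg hl
    | succ n =>
      rw [Finset.sum_range_succ']
      simp only [List.getD_cons_succ, List.getD_cons_zero, List.sum_cons]
      have := ih hl' n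
      linarith

theorem ML_getD_nonneg (i : ℕ) : 0 ≤ ML.getD i 0 := by
  rcases lt_or_ge i ML.length with h | h
  · rw [List.getD_eq_getElem _ _ h]
    exact ML_nonneg _ (List.getElem_mem h)
  · rw [List.getD_eq_default _ _ h]

theorem coeff_M_abs (φ : ℤ⟦X⟧) (hφ : ∀ k, |coeff k φ| ≤ 2) (k : ℕ) :
    |coeff k (Mps * φ)| ≤ 13278698 := by
  rw [coeff_M_mul]
  calc |∑ i ∈ Finset.range (k + 1), ML.getD i 0 * coeff (k - i) φ|
      ≤ ∑ i ∈ Finset.range (k + 1), |ML.getD i 0 * coeff (k - i) φ| :=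
        Finset.abs_sum_le_sum_abs _ _
    _ ≤ ∑ i ∈ Finset.range (k + 1), ML.getD i 0 * 2 := by
        apply Finset.sum_le_sum
        intro i _
        rw [abs_mul, abs_of_nonneg (ML_getD_nonneg i)]
        exact mul_le_mul_of_nonneg_left (hφ _) (ML_getD_nonneg i)
    _ = (∑ i ∈ Finset.range (k + 1), ML.getD i 0) * 2 := by rw [Finset.sum_mul]
    _ ≤ ML.sum * 2 := by
        have := getD_sum_le ML ML_nonneg (k + 1)
        linarith
    _ = 13278698 := by rw [ML_sum]; norm_num

theorem positive (B : ℤ⟦X⟧) (hB : B * falseTheta (-X ^ 2) X = eulerProduct) (n : ℕ)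
    (hn : 7 ≤ n) : 0 < coeff n B := by
  set f : ℕ → ℤ := fun k => coeff k (Mps * falseTheta (-X ^ 2) X) with hf
  set g : ℕ → ℤ := fun k => coeff k (Mps * eulerProduct) with hg
  set b : ℕ → ℤ := fun k => coeff k B with hb
  have hrec0 : ∀ m, ∑ k ∈ Finset.range (m + 1), f k * b (m - k) = g m := by
    intro m
    have h1 : (Mps * falseTheta (-X ^ 2) X) * B = Mps * eulerProduct := by
      rw [← hB]; ring
    have h2 := congrArg (coeff m) h1
    rw [coeff_mul, Finset.Nat.sum_antidiagonal_eq_sum_range_succ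
      (fun i j => coeff i (Mps * falseTheta (-X ^ 2) X) * coeff j B)] at h2
    exact h2
  have hff : ∀ k ≤ 60, f k = fC k := by
    intro k hk
    simp only [hf]
    rw [coeff_M_mul]
    unfold fC
    refine Finset.sum_congr rfl fun i _ => ?_
    rw [coeff_falseTheta, psiC_eq (k - i) (Finset.mem_range.mpr (by omega))]
  have hgg : ∀ k ≤ 60, g k = gC k := by
    intro k hk
    simp only [hg]
    rw [coeff_M_mul]
    unfold gC
    refine Finset.sum_congr rfl fun i _ => ?_
    rw [coeff_euler, eC_eq (k - i) (Finset.mem_range.mpr (by omega))]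
  have hf0 : f 0 = 1 := by rw [hff 0 (by omega)]; decide +kernel
  have hg0 : g 0 = 1 := by rw [hgg 0 (by omega)]; decide +kernel
  have hb0 : b 0 = 1 := by
    have := hrec0 0
    simp only [zero_add, Finset.range_one, Finset.sum_singleton, Nat.sub_self, hf0, hg0,
      one_mul] at this
    exact this
  have hmain := main b g f hb0 (by
      intro m
      have h := hrec0 (m + 1)
      rw [Finset.sum_range_succ'] at h
      simp only [Nat.add_sub_add_right, Nat.sub_zero, hf0, one_mul] at h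
      linarith) (by
      intro k hk
      rw [hff (k + 1) (by omega)]
      exact fC_eq k (Finset.mem_range.mpr hk)) (fun k => coeff_M_abs _ (fun j => by
        rw [coeff_falseTheta]; exact psiC_abs j) k) (by
      intro k h1 h2
      obtain ⟨j, rfl⟩ : ∃ j, k = j + 1 := ⟨k - 1, by omega⟩
      rw [hgg (j + 1) h2]
      exact gC_eq j (Finset.mem_range.mpr (by omega)))
      (fun k => coeff_M_abs _ (fun j => (coeff_euler_abs j).trans (by norm_num)) k) n
  have h1 := hmain.2 n le_rfl
  rw [Nat.sub_self, hb0, mul_one] at h1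
  exact lt_of_lt_of_le (w_pos n hn) h1

theorem constantCoeff_falseTheta : constantCoeff (falseTheta (-X ^ 2) X) = 1 := by
  rw [← coeff_zero_eq_constantCoeff_apply, coeff_falseTheta, psiC_eq 0 (by simp)]
  rfl

end H125d.FT
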