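import Mathlib

/-! # Nilpotent-Jacobian method for 4 by 4 sign patterns -/

namespace H125d.SAP

/-- The four characteristic coefficients (sums of principal minors of sizes 1, 2, 3, 4). -/
def E {R : Type*} [CommRing R] (k : Fin 4) (A : Fin 4 → Fin 4 → R) : R :=
  match k with
  | 0 => A 0 0 + A 1 1 + A 2 2 + A 3 3
  | 1 => (A 0 0 * A 1 1 - A 0 1 * A 1 0) + (A 0 0 * A 2 2 - A 0 2 * A 2 0)
      + (A 0 0 * A 3 3 - A 0 3 * A 3 0) + (A 1 1 * A 2 2 - A 1 2 * A 2 1)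
      + (A 1 1 * A 3 3 - A 1 3 * A 3 1) + (A 2 2 * A 3 3 - A 2 3 * A 3 2)
  | 2 => (A 0 0 * A 1 1 * A 2 2 - A 0 0 * A 1 2 * A 2 1 - A 0 1 * A 1 0 * A 2 2
        + A 0 1 * A 1 2 * A 2 0 + A 0 2 * A 1 0 * A 2 1 - A 0 2 * A 1 1 * A 2 0)
      + (A 0 0 * A 1 1 * A 3 3 - A 0 0 * A 1 3 * A 3 1 - A 0 1 * A 1 0 * A 3 3
        + A 0 1 * A 1 3 * A 3 0 + A 0 3 * A 1 0 * A 3 1 - A 0 3 * A 1 1 * A 3 0)
      + (A 0 0 * A 2 2 * A 3 3 - A 0 0 * A 2 3 * A 3 2 - A 0 2 * A 2 0 * A 3 3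
        + A 0 2 * A 2 3 * A 3 0 + A 0 3 * A 2 0 * A 3 2 - A 0 3 * A 2 2 * A 3 0)
      + (A 1 1 * A 2 2 * A 3 3 - A 1 1 * A 2 3 * A 3 2 - A 1 2 * A 2 1 * A 3 3
        + A 1 2 * A 2 3 * A 3 1 + A 1 3 * A 2 1 * A 3 2 - A 1 3 * A 2 2 * A 3 1)
  | 3 => A 0 0 * (A 1 1 * A 2 2 * A 3 3 - A 1 1 * A 2 3 * A 3 2 - A 1 2 * A 2 1 * A 3 3
        + A 1 2 * A 2 3 * A 3 1 + A 1 3 * A 2 1 * A 3 2 - A 1 3 * A 2 2 * A 3 1)
      - A 0 1 * (A 1 0 * A 2 2 * A 3 3 - A 1 0 * A 2 3 * A 3 2 - A 1 2 * A 2 0 * A 3 3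
        + A 1 2 * A 2 3 * A 3 0 + A 1 3 * A 2 0 * A 3 2 - A 1 3 * A 2 2 * A 3 0)
      + A 0 2 * (A 1 0 * A 2 1 * A 3 3 - A 1 0 * A 2 3 * A 3 1 - A 1 1 * A 2 0 * A 3 3
        + A 1 1 * A 2 3 * A 3 0 + A 1 3 * A 2 0 * A 3 1 - A 1 3 * A 2 1 * A 3 0)
      - A 0 3 * (A 1 0 * A 2 1 * A 3 2 - A 1 0 * A 2 2 * A 3 1 - A 1 1 * A 2 0 * A 3 2
        + A 1 1 * A 2 2 * A 3 0 + A 1 2 * A 2 0 * A 3 1 - A 1 2 * A 2 1 * A 3 0)

/-- `A` with `s` added at position `(a, b)`. -/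
def bump {R : Type*} [CommRing R] (A : Fin 4 → Fin 4 → R) (a b : Fin 4) (s : R) :
    Fin 4 → Fin 4 → R :=
  fun i j => A i j + if i = a ∧ j = b then s else 0

/-- The matrix of partial derivatives of the characteristic coefficients with respect to the
four entries listed in `pos`. -/
def Jac {R : Type*} [CommRing R] (A : Fin 4 → Fin 4 → R) (pos : Fin 4 → Fin 4 × Fin 4) :
    Fin 4 → Fin 4 → R :=
  fun k m => E k (bump A (pos m).1 (pos m).2 1) - E k A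

theorem E_cast (M : Fin 4 → Fin 4 → ℤ) (k : Fin 4) :
    E k (fun i j => ((M i j : ℤ) : ℝ)) = ((E k M : ℤ) : ℝ) := by
  fin_cases k <;> simp [E]

theorem bump_cast (M : Fin 4 → Fin 4 → ℤ) (a b : Fin 4) :
    bump (fun i j => ((M i j : ℤ) : ℝ)) a b 1 = fun i j => ((bump M a b 1 i j : ℤ) : ℝ) := by
  funext i j
  unfold bump
  split_ifs <;> simp

theorem Jac_cast (M : Fin 4 → Fin 4 → ℤ) (pos : Fin 4 → Fin 4 × Fin 4) :
    Jac (fun i j => ((M i j : ℤ) : ℝ)) pos = fun i j => ((Jac M pos i j : ℤ) : ℝ) := by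
  funext i j
  unfold Jac
  rw [bump_cast, E_cast, E_cast]
  push_cast; ring

theorem E_bump (A : Fin 4 → Fin 4 → ℝ) (a b : Fin 4) (s : ℝ) (k : Fin 4) :
    E k (bump A a b s) = E k A + s * (E k (bump A a b 1) - E k A) := by
  fin_cases a <;> fin_cases b <;> fin_cases k <;> simp [E, bump] <;> ring

theorem E_smul (A : Fin 4 → Fin 4 → ℝ) (c : ℝ) (k : Fin 4) :
    E k (fun i j => c * A i j) = c ^ (k.val + 1) * E k A := by
  fin_cases k <;> simp [E] <;> ring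

theorem det_eq (A : Matrix (Fin 4) (Fin 4) ℝ) : A.det = E 3 A := by
  simp [Matrix.det_succ_row_zero, Fin.sum_univ_succ, E, Matrix.submatrix, Fin.succAbove]
  ring

open Polynomial in
theorem charpoly_eq (A : Matrix (Fin 4) (Fin 4) ℝ) :
    A.charpoly = X ^ 4 - C (E 0 A) * X ^ 3 + C (E 1 A) * X ^ 2 - C (E 2 A) * X + C (E 3 A) := by
  simp [Matrix.charpoly, Matrix.charmatrix, Matrix.det_succ_row_zero, Fin.sum_univ_succ, E,
    Matrix.submatrix, Fin.succAbove, Matrix.scalar]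
  ring

end H125d.SAP
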