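import Pool.Agent.H125d.SAP1

/-! # Nilpotent-Jacobian method: the perturbation lemma -/

namespace H125d.SAP

open Filter Topology

/-- A real matrix `A` is a realization of the sign pattern `𝒜` when each entry of `A` has the
sign prescribed by `𝒜`. -/
def IsRealization {n : ℕ} (𝒜 : Matrix (Fin n) (Fin n) SignType)
    (A : Matrix (Fin n) (Fin n) ℝ) : Prop :=
  ∀ i j, SignType.sign (A i j) = 𝒜 i j

/-- A sign pattern of order `n` is spectrally arbitrary when every monic real polynomial of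
degree `n` is the characteristic polynomial of one of its realizations. -/
def SpectrallyArbitrary {n : ℕ} (𝒜 : Matrix (Fin n) (Fin n) SignType) : Prop :=
  ∀ p : Polynomial ℝ, p.Monic → p.natDegree = n →
    ∃ A : Matrix (Fin n) (Fin n) ℝ, IsRealization 𝒜 A ∧ A.charpoly = p

open Polynomial in
theorem poly4 (p : ℝ[X]) (hp : p.Monic) (hd : p.natDegree = 4) :
    p = X ^ 4 + C (p.coeff 3) * X ^ 3 + C (p.coeff 2) * X ^ 2 + C (p.coeff 1) * X
      + C (p.coeff 0) := by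
  have h4 : p.coeff 4 = 1 := by
    have := hp.coeff_natDegree
    rwa [hd] at this
  conv_lhs => rw [p.as_sum_range_C_mul_X_pow]
  rw [hd]
  simp only [Finset.sum_range_succ, Finset.sum_range_zero, h4]
  simp
  try ring

theorem sa_of_E (ℬ : Matrix (Fin 4) (Fin 4) SignType)
    (h : ∀ τ : Fin 4 → ℝ, ∃ A : Matrix (Fin 4) (Fin 4) ℝ, IsRealization ℬ A ∧ ∀ k, E k A = τ k) :
    SpectrallyArbitrary ℬ := by
  intro p hp hd
  obtain ⟨A, hA, hE⟩ := h ![-p.coeff 3, p.coeff 2, -p.coeff 1, p.coeff 0]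
  refine ⟨A, hA, ?_⟩
  rw [charpoly_eq, hE, hE, hE, hE, poly4 p hp hd]
  simp

theorem fderiv_dir {V W : Type*} [NormedAddCommGroup V] [NormedSpace ℝ V]
    [NormedAddCommGroup W] [NormedSpace ℝ W] {G : V → W} {L : V →L[ℝ] W}
    (hG : HasFDerivAt G L 0) (v : V) (w : W)
    (h : ∀ s : ℝ, G (s • v) = G 0 + s • w) : L v = w := by
  have h1 : HasDerivAt (fun s : ℝ => s • v) v 0 := by
    simpa using (hasDerivAt_id (0:ℝ)).smul_const v
  have h2 : HasDerivAt (fun s : ℝ => G (s • v)) (L v) 0 := by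
    have hG' : HasFDerivAt G L ((0:ℝ) • v) := by simpa using hG
    exact hG'.comp_hasDerivAt (0:ℝ) h1
  have h3 : HasDerivAt (fun s : ℝ => G 0 + s • w) w 0 := by
    have := ((hasDerivAt_id (0:ℝ)).smul_const w).const_add (G 0)
    simpa using this
  have h4 : (fun s : ℝ => G (s • v)) = fun s : ℝ => G 0 + s • w := funext h
  rw [h4] at h2
  exact h2.unique h3

/-- The perturbed matrix. -/
noncomputable def Bq (A0 Ex : Fin 4 → Fin 4 → ℝ) (pos : Fin 4 → Fin 4 × Fin 4)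
    (q : (Fin 4 → ℝ) × ℝ) : Fin 4 → Fin 4 → ℝ :=
  fun i j => A0 i j + (∑ m, (if i = (pos m).1 ∧ j = (pos m).2 then (1:ℝ) else 0) * q.1 m)
    + q.2 * Ex i j

theorem contDiff_Bq (A0 Ex : Fin 4 → Fin 4 → ℝ) (pos : Fin 4 → Fin 4 × Fin 4) (i j : Fin 4) :
    ContDiff ℝ 1 (fun q => Bq A0 Ex pos q i j) := by
  unfold Bq
  fun_prop

theorem contDiff_E (A0 Ex : Fin 4 → Fin 4 → ℝ) (pos : Fin 4 → Fin 4 × Fin 4) (k : Fin 4) :
    ContDiff ℝ 1 (fun q => E k (Bq A0 Ex pos q)) := by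
  have h := contDiff_Bq A0 Ex pos
  fin_cases k <;> simp only [E] <;> fun_prop

theorem Bq_single (A0 Ex : Fin 4 → Fin 4 → ℝ) (pos : Fin 4 → Fin 4 × Fin 4) (m : Fin 4) (s : ℝ) :
    Bq A0 Ex pos (s • ((Pi.single m (1:ℝ) : Fin 4 → ℝ), (0:ℝ))) =
      bump A0 (pos m).1 (pos m).2 s := by
  funext i j
  simp only [Bq, bump, Prod.smul_mk, smul_eq_mul, mul_zero, zero_mul, add_zero, Pi.smul_apply]
  congr 1
  rw [Finset.sum_eq_single m]
  · split_ifs <;> simp
  · intro b _ hb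
    simp [hb]
  · intro h; exact absurd (Finset.mem_univ m) h

theorem exists_jac (J : Matrix (Fin 4) (Fin 4) ℝ) (hJ : E 3 J ≠ 0) (c : Fin 4 → ℝ) :
    ∃ t : Fin 4 → ℝ, J.mulVec t = c := by
  have hdet : IsUnit J.det := by rw [det_eq]; exact isUnit_iff_ne_zero.mpr hJ
  exact ⟨J⁻¹.mulVec c, by rw [Matrix.mulVec_mulVec, Matrix.mul_nonsing_inv _ hdet,
    Matrix.one_mulVec]⟩

theorem NJ (M : Fin 4 → Fin 4 → ℤ) (pos : Fin 4 → Fin 4 × Fin 4)
    (ℬ : Matrix (Fin 4) (Fin 4) SignType)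
    (hE : ∀ k, E k M = 0) (hJ : E 3 (Jac M pos) ≠ 0) (hpos : ∀ m, M (pos m).1 (pos m).2 ≠ 0)
    (hsup : ∀ i j, M i j ≠ 0 → ℬ i j = SignType.sign (M i j)) (τ : Fin 4 → ℝ) :
    ∃ A : Matrix (Fin 4) (Fin 4) ℝ, IsRealization ℬ A ∧ ∀ k, E k A = τ k := by
  classical
  set A0 : Fin 4 → Fin 4 → ℝ := fun i j => (M i j : ℝ) with hA0
  set Ex : Fin 4 → Fin 4 → ℝ := fun i j => if M i j = 0 then ((ℬ i j : SignType) : ℝ) else 0
    with hEx
  set G1 : (Fin 4 → ℝ) × ℝ → (Fin 4 → ℝ) := fun q k => E k (Bq A0 Ex pos q) with hG1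
  have hB0 : Bq A0 Ex pos 0 = A0 := by
    funext i j; simp [Bq]
  have hG10 : G1 0 = 0 := by
    funext k
    simp only [hG1, hB0, Pi.zero_apply]
    rw [hA0, E_cast, hE, Int.cast_zero]
  have hcd : ContDiff ℝ 1 G1 := contDiff_pi.mpr (fun k => contDiff_E A0 Ex pos k)
  have hst : HasStrictFDerivAt G1 (fderiv ℝ G1 0) 0 :=
    (hcd.contDiffAt).hasStrictFDerivAt (by norm_num)
  set L1 := fderiv ℝ G1 0 with hL1
  set J : Matrix (Fin 4) (Fin 4) ℝ := Matrix.of (Jac A0 pos) with hJdef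
  have hJ' : E 3 J ≠ 0 := by
    have : E 3 (Jac A0 pos) ≠ 0 := by
      rw [hA0, Jac_cast, E_cast]
      exact_mod_cast hJ
    exact this
  have hcol : ∀ m, L1 ((Pi.single m (1:ℝ) : Fin 4 → ℝ), (0:ℝ)) = fun k => J k m := by
    intro m
    apply fderiv_dir hst.hasFDerivAt
    intro s
    funext k
    simp only [hG1, Bq_single, Pi.add_apply, Pi.smul_apply, smul_eq_mul, hB0]
    rw [E_bump]
    rfl
  have hL1t : ∀ t : Fin 4 → ℝ, L1 (t, (0:ℝ)) = J.mulVec t := by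
    intro t
    have ht : ((t, (0:ℝ)) : (Fin 4 → ℝ) × ℝ) =
        ∑ m, t m • ((Pi.single m (1:ℝ) : Fin 4 → ℝ), (0:ℝ)) := by
      refine Prod.ext ?_ ?_
      · rw [Prod.fst_sum]
        funext j
        simp [Finset.sum_apply, Pi.single_apply]
      · rw [Prod.snd_sum]; simp
    rw [ht, map_sum]
    funext k
    simp only [map_smul, hcol, Finset.sum_apply, Pi.smul_apply, smul_eq_mul, Matrix.mulVec,
      dotProduct]
    exact Finset.sum_congr rfl (fun m _ => mul_comm _ _)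
  set G : (Fin 4 → ℝ) × ℝ → (Fin 4 → ℝ) × ℝ := fun q => (G1 q, q.2) with hG
  have hGst : HasStrictFDerivAt G (L1.prod (ContinuousLinearMap.snd ℝ (Fin 4 → ℝ) ℝ)) 0 :=
    hst.prodMk hasStrictFDerivAt_snd
  have hsurj : (L1.prod (ContinuousLinearMap.snd ℝ (Fin 4 → ℝ) ℝ)).range = ⊤ := by
    rw [LinearMap.range_eq_top]
    rintro ⟨c, e⟩
    obtain ⟨t, ht⟩ := exists_jac J hJ' (c - L1 (0, e))
    refine ⟨(t, e), ?_⟩
    have h1 : ((t, e) : (Fin 4 → ℝ) × ℝ) = (t, 0) + (0, e) := by simp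
    refine Prod.ext ?_ rfl
    change L1 (t, e) = c
    rw [h1, map_add, hL1t, ht]
    simp
  have hmap := hGst.map_nhds_eq_of_surj hsurj
  have hG0 : G 0 = 0 := by
    refine Prod.ext ?_ rfl
    exact hG10
  rw [hG0] at hmap
  -- the sign conditions are open
  have hSign : ∀ᶠ q in 𝓝 (0 : (Fin 4 → ℝ) × ℝ), ∀ i j, M i j ≠ 0 →
      SignType.sign (Bq A0 Ex pos q i j) = SignType.sign (M i j) := by
    rw [eventually_all]; intro i
    rw [eventually_all]; intro j
    by_cases hM : M i j = 0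
    · exact Eventually.of_forall (fun q h => absurd hM h)
    have hc : ContinuousAt (fun q => Bq A0 Ex pos q i j) 0 :=
      (contDiff_Bq A0 Ex pos i j).continuous.continuousAt
    have h0 : Bq A0 Ex pos 0 i j = (M i j : ℝ) := by rw [hB0]
    rcases lt_or_gt_of_ne hM with h | h
    · have : ∀ᶠ q in 𝓝 (0 : (Fin 4 → ℝ) × ℝ), Bq A0 Ex pos q i j < 0 :=
        hc.eventually_lt continuousAt_const (by rw [h0]; exact_mod_cast h)
      filter_upwards [this] with q hq _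
      rw [sign_neg hq, sign_neg h]
    · have : ∀ᶠ q in 𝓝 (0 : (Fin 4 → ℝ) × ℝ), 0 < Bq A0 Ex pos q i j :=
        continuousAt_const.eventually_lt hc (by rw [h0]; exact_mod_cast h)
      filter_upwards [this] with q hq _
      rw [sign_pos hq, sign_pos h]
  have himg : G '' {q | ∀ i j, M i j ≠ 0 →
      SignType.sign (Bq A0 Ex pos q i j) = SignType.sign (M i j)} ∈ 𝓝 (0 : (Fin 4 → ℝ) × ℝ) := by
    rw [← hmap]
    exact image_mem_map hSign
  have hcurve : Tendsto (fun l : ℝ => ((fun k : Fin 4 => l ^ (k.val + 1) * τ k), l)) (𝓝[>] 0)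
      (𝓝 (0 : (Fin 4 → ℝ) × ℝ)) := by
    have hcont : Continuous (fun l : ℝ => ((fun k : Fin 4 => l ^ (k.val + 1) * τ k), l)) := by
      fun_prop
    have h := hcont.tendsto 0
    have h0 : ((fun k : Fin 4 => (0:ℝ) ^ (k.val + 1) * τ k), (0:ℝ)) = (0 : (Fin 4 → ℝ) × ℝ) := by
      refine Prod.ext ?_ rfl
      funext k
      simp
    rw [h0] at h
    exact h.mono_left nhdsWithin_le_nhds
  have hev := hcurve.eventually himg
  obtain ⟨l, hl, hlpos⟩ := (hev.and self_mem_nhdsWithin).exists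
  obtain ⟨q, hq, hGq⟩ := hl
  have hlpos : 0 < l := hlpos
  have hq2 : q.2 = l := congrArg Prod.snd hGq
  have hq1 : ∀ k, E k (Bq A0 Ex pos q) = l ^ (k.val + 1) * τ k := fun k =>
    congrFun (congrArg Prod.fst hGq) k
  refine ⟨fun i j => l⁻¹ * Bq A0 Ex pos q i j, ?_, ?_⟩
  · intro i j
    have hsg : SignType.sign (l⁻¹ * Bq A0 Ex pos q i j) = SignType.sign (Bq A0 Ex pos q i j) := by
      rw [sign_mul, sign_pos (inv_pos.mpr hlpos), one_mul]
    change SignType.sign (l⁻¹ * Bq A0 Ex pos q i j) = ℬ i j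
    rw [hsg]
    by_cases hM : M i j = 0
    · have hval : Bq A0 Ex pos q i j = l * ((ℬ i j : SignType) : ℝ) := by
        have hs : (∑ m, (if i = (pos m).1 ∧ j = (pos m).2 then (1:ℝ) else 0) * q.1 m) = 0 := by
          apply Finset.sum_eq_zero
          intro m _
          rw [if_neg, zero_mul]
          rintro ⟨h1, h2⟩
          apply hpos m
          rw [← h1, ← h2]; exact hM
        simp only [Bq, hs, hA0, hEx, hM, hq2, if_true, Int.cast_zero, zero_add]
      rw [hval, sign_mul, sign_pos hlpos, one_mul]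
      rcases ℬ i j with _ | _ | _ <;> simp
    · rw [hq i j hM, hsup i j hM]
  · intro k
    have := E_smul (Bq A0 Ex pos q) l⁻¹ k
    change E k (fun i j => l⁻¹ * Bq A0 Ex pos q i j) = τ k
    rw [this, hq1, ← mul_assoc, ← mul_pow, inv_mul_cancel₀ hlpos.ne', one_pow, one_mul]

end H125d.SAP
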