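import Pool.Agent.H125d.SAP2

/-! # The 32 nilpotent matrices -/

namespace H125d.SAP

/-- The 32 integral nilpotent matrices together with four positions; the entry with index
`16 i + 8 j + 4 k + 2 l + e` has its off-block entries at `(i, 2+j)` and `(2+k, l)`, and `e = 1`
when these two entries have the same sign. -/
def data : List (List (List ℤ) × List (ℕ × ℕ)) := [
  ([[1, 1, 1, 0], [-4, -2, 0, 0], [-1, 0, 3, 1], [0, 0, -4, -2]],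
   [(0, 0), (0, 1), (0, 2), (1, 1)]),
  ([[15, 1, 1, 0], [-540, -30, 0, 0], [15, 0, 45, 1], [0, 0, -1500, -30]],
   [(0, 0), (0, 1), (0, 2), (1, 1)]),
  ([[6, 21, 1, 0], [-1, -1, 0, 0], [0, -25, 1, 1], [0, 0, -16, -6]],
   [(0, 0), (0, 1), (0, 2), (2, 2)]),
  ([[1, 22, 1, 0], [-1, -4, 0, 0], [0, 81, 5, 1], [0, 0, -1, -2]],
   [(0, 0), (0, 1), (0, 2), (2, 2)]),
  ([[5, 1, 1, 0], [-1, -2, 0, 0], [0, 0, 1, 1], [-81, 0, -22, -4]],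
   [(0, 0), (0, 1), (0, 2), (1, 1)]),
  ([[5, 1, 1, 0], [-16, -2, 0, 0], [0, 0, 1, 1], [9, 0, -7, -4]],
   [(0, 0), (0, 1), (0, 2), (1, 1)]),
  ([[4, 10, 1, 0], [-1, -2, 0, 0], [0, 0, 2, 1], [0, -4, -10, -4]],
   [(0, 0), (0, 1), (0, 2), (2, 2)]),
  ([[2, 6, 1, 0], [-1, -2, 0, 0], [0, 0, 2, 1], [0, 4, -2, -2]],
   [(0, 0), (0, 1), (0, 2), (2, 2)]),
  ([[5, 1, 0, 1], [-16, -2, 0, 0], [-9, 0, 1, 7], [0, 0, -1, -4]],
   [(0, 0), (0, 1), (0, 3), (1, 1)]),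
  ([[5, 1, 0, 1], [-1, -2, 0, 0], [81, 0, 1, 22], [0, 0, -1, -4]],
   [(0, 0), (0, 1), (0, 3), (1, 1)]),
  ([[2, 6, 0, 1], [-1, -2, 0, 0], [0, -4, 2, 2], [0, 0, -1, -2]],
   [(0, 0), (0, 1), (0, 3), (2, 2)]),
  ([[4, 10, 0, 1], [-1, -2, 0, 0], [0, 4, 2, 10], [0, 0, -1, -4]],
   [(0, 0), (0, 1), (0, 3), (2, 2)]),
  ([[20, 1, 0, 1], [-250, -10, 0, 0], [0, 0, 20, 1], [-10, 0, -640, -30]],
   [(0, 0), (0, 1), (0, 3), (1, 1)]),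
  ([[2, 1, 0, 1], [-8, -2, 0, 0], [0, 0, 2, 1], [2, 0, -2, -2]],
   [(0, 0), (0, 1), (0, 3), (1, 1)]),
  ([[4, 22, 0, 1], [-1, -1, 0, 0], [0, 0, 2, 1], [0, -81, -1, -5]],
   [(0, 0), (0, 1), (0, 3), (2, 2)]),
  ([[4, 7, 0, 1], [-1, -1, 0, 0], [0, 0, 2, 1], [0, 9, -16, -5]],
   [(0, 0), (0, 1), (0, 3), (2, 3)]),
  ([[1, 1, 0, 0], [-22, -4, 1, 0], [-81, 0, 5, 1], [0, 0, -1, -2]],
   [(0, 0), (0, 1), (1, 0), (2, 2)]),
  ([[6, 1, 0, 0], [-21, -1, 1, 0], [25, 0, 1, 1], [0, 0, -16, -6]],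
   [(0, 0), (0, 1), (1, 0), (2, 2)]),
  ([[52, 1, 0, 0], [-1664, -26, 1, 0], [0, -26, 52, 1], [0, 0, -4394, -78]],
   [(0, 0), (0, 1), (1, 1), (1, 2)]),
  ([[2, 1, 0, 0], [-8, -2, 1, 0], [0, 2, 2, 1], [0, 0, -2, -2]],
   [(0, 0), (0, 1), (1, 1), (1, 2)]),
  ([[2, 1, 0, 0], [-6, -2, 1, 0], [0, 0, 2, 1], [-4, 0, -2, -2]],
   [(0, 0), (0, 1), (1, 0), (2, 2)]),
  ([[4, 1, 0, 0], [-10, -2, 1, 0], [0, 0, 2, 1], [4, 0, -10, -4]],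
   [(0, 0), (0, 1), (1, 0), (2, 2)]),
  ([[6, 1, 0, 0], [-16, -1, 1, 0], [0, 0, 1, 1], [0, -25, -21, -6]],
   [(0, 0), (0, 1), (1, 1), (1, 2)]),
  ([[2, 1, 0, 0], [-1, -5, 1, 0], [0, 0, 4, 1], [0, 81, -22, -1]],
   [(0, 0), (0, 1), (1, 1), (1, 2)]),
  ([[4, 1, 0, 0], [-10, -2, 0, 1], [-4, 0, 2, 10], [0, 0, -1, -4]],
   [(0, 0), (0, 1), (1, 0), (2, 2)]),
  ([[2, 1, 0, 0], [-6, -2, 0, 1], [4, 0, 2, 2], [0, 0, -1, -2]],
   [(0, 0), (0, 1), (1, 0), (2, 2)]),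
  ([[2, 1, 0, 0], [-1, -5, 0, 1], [0, -81, 4, 22], [0, 0, -1, -1]],
   [(0, 0), (0, 1), (1, 1), (1, 3)]),
  ([[6, 1, 0, 0], [-16, -1, 0, 1], [0, 25, 1, 21], [0, 0, -1, -6]],
   [(0, 0), (0, 1), (1, 1), (1, 3)]),
  ([[4, 1, 0, 0], [-7, -1, 0, 1], [0, 0, 2, 1], [-9, 0, -16, -5]],
   [(0, 0), (0, 1), (1, 0), (2, 3)]),
  ([[4, 1, 0, 0], [-22, -1, 0, 1], [0, 0, 2, 1], [81, 0, -1, -5]],
   [(0, 0), (0, 1), (1, 0), (2, 2)]),
  ([[2, 1, 0, 0], [-4, -1, 0, 1], [0, 0, 2, 1], [0, -1, -4, -3]],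
   [(0, 0), (0, 1), (1, 1), (1, 3)]),
  ([[30, 1, 0, 0], [-540, -15, 0, 1], [0, 0, 30, 1], [0, 15, -1500, -45]],
   [(0, 0), (0, 1), (1, 1), (1, 3)])]


/-- Entry of a list of rows. -/
def mrow (r : List (List ℤ)) (i j : Fin 4) : ℤ := (r.getD i.val []).getD j.val 0

/-- The four positions of a table entry. -/
def posOf (l : List (ℕ × ℕ)) (m : Fin 4) : Fin 4 × Fin 4 :=
  (Fin.ofNat 4 (l.getD m.val (0, 0)).1, Fin.ofNat 4 (l.getD m.val (0, 0)).2)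

/-- Index into the table. -/
def idx (i j k l : Fin 2) (s : Bool) : ℕ :=
  16 * i.val + 8 * j.val + 4 * k.val + 2 * l.val + (if s then 1 else 0)

/-- The matrix used for the positions `(i, 2+j)` and `(2+k, l)` with the signs `s1`, `s2`. -/
def mat (i j k l : Fin 2) (s1 s2 : Bool) : Fin 4 → Fin 4 → ℤ := fun a b =>
  (if (a.val < 2 ∧ 2 ≤ b.val) ∨ (2 ≤ a.val ∧ b.val < 2) then (if s1 then 1 else -1) else 1) *
    mrow (data.getD (idx i j k l (s1 == s2)) ([], [])).1 a b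

/-- The four positions used for the Jacobian. -/
def ps (i j k l : Fin 2) (s1 s2 : Bool) : Fin 4 → Fin 4 × Fin 4 :=
  posOf (data.getD (idx i j k l (s1 == s2)) ([], [])).2

/-- The sign pattern `T₂ ⊕ T₂`. -/
def T : Matrix (Fin 4) (Fin 4) SignType :=
  !![1, 1, 0, 0; -1, -1, 0, 0; 0, 0, 1, 1; 0, 0, -1, -1]

/-- The pattern of `mat`. -/
def expd (i j k l : Fin 2) (s1 s2 : Bool) (a b : Fin 4) : SignType :=
  if T a b ≠ 0 then T a b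
  else if a = Fin.castAdd 2 i ∧ b = Fin.natAdd 2 j then (if s1 then 1 else -1)
  else if a = Fin.natAdd 2 k ∧ b = Fin.castAdd 2 l then (if s2 then 1 else -1)
  else 0

set_option maxRecDepth 100000 in
theorem table_E : ∀ (i j k l : Fin 2) (s1 s2 : Bool) (n : Fin 4), E n (mat i j k l s1 s2) = 0 := by
  decide +kernel

set_option maxRecDepth 100000 in
theorem table_J : ∀ (i j k l : Fin 2) (s1 s2 : Bool),
    E 3 (Jac (mat i j k l s1 s2) (ps i j k l s1 s2)) ≠ 0 := by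
  decide +kernel

set_option maxRecDepth 100000 in
theorem table_pos : ∀ (i j k l : Fin 2) (s1 s2 : Bool) (m : Fin 4),
    mat i j k l s1 s2 (ps i j k l s1 s2 m).1 (ps i j k l s1 s2 m).2 ≠ 0 := by
  decide +kernel

set_option maxRecDepth 100000 in
theorem table_sign : ∀ (i j k l : Fin 2) (s1 s2 : Bool) (a b : Fin 4),
    SignType.sign (mat i j k l s1 s2 a b) = expd i j k l s1 s2 a b := by
  decide +kernel

end H125d.SAP
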