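import Pool.Agent.H125d.SAP3

/-! # Block triangular superpatterns, and the final case distinction -/

namespace H125d.SAP

open Polynomial in
theorem poly2 (p : ℝ[X]) (hp : p.Monic) (hd : p.natDegree = 2) :
    p = X ^ 2 + C (p.coeff 1) * X + C (p.coeff 0) := by
  have h4 : p.coeff 2 = 1 := by
    have := hp.coeff_natDegree
    rwa [hd] at this
  conv_lhs => rw [p.as_sum_range_C_mul_X_pow]
  rw [hd]
  simp only [Finset.sum_range_succ, Finset.sum_range_zero, h4]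
  simp
  ring

open Polynomial in
/-- Every list of four characteristic coefficients comes from two quadratics. -/
theorem split_quartic (τ : Fin 4 → ℝ) : ∃ t1 d1 t2 d2 : ℝ,
    t1 + t2 = τ 0 ∧ d1 + d2 + t1 * t2 = τ 1 ∧ t1 * d2 + t2 * d1 = τ 2 ∧ d1 * d2 = τ 3 := by
  set p : ℝ[X] := X ^ 4 + C (-τ 0) * X ^ 3 + C (τ 1) * X ^ 2 + C (-τ 2) * X + C (τ 3) with hp
  have hdeg : p.natDegree = 4 := by rw [hp]; compute_degree!
  have hmon : p.Monic := by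
    rw [Polynomial.Monic, Polynomial.leadingCoeff, hdeg, hp]
    simp
  have hM : p.IsMonicOfDegree (2 + 2) := ⟨hdeg, hmon⟩
  obtain ⟨f₁, f₂, h1, h2, h12⟩ := hM.eq_isMonicOfDegree_two_mul_isMonicOfDegree
  have e1 := poly2 f₁ h1.monic h1.natDegree_eq
  have e2 := poly2 f₂ h2.monic h2.natDegree_eq
  set b1 := f₁.coeff 1
  set c1 := f₁.coeff 0
  set b2 := f₂.coeff 1
  set c2 := f₂.coeff 0
  have key : ∀ x : ℝ, x ^ 4 - τ 0 * x ^ 3 + τ 1 * x ^ 2 - τ 2 * x + τ 3 =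
      (x ^ 2 + b1 * x + c1) * (x ^ 2 + b2 * x + c2) := by
    intro x
    have h := congrArg (eval x) h12
    rw [e1, e2, hp] at h
    simp only [eval_add, eval_mul, eval_pow, eval_X, eval_C] at h
    linarith
  have k0 := key 0
  have k1 := key 1
  have k2 := key (-1)
  have k3 := key 2
  refine ⟨-b1, c1, -b2, c2, ?_, ?_, ?_, ?_⟩
  · ring_nf at k0 k1 k2 k3 ⊢; linarith
  · ring_nf at k0 k1 k2 k3 ⊢; linarith
  · ring_nf at k0 k1 k2 k3 ⊢; linarith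
  · ring_nf at k0 k1 k2 k3 ⊢; linarith

theorem sign_coe (s : SignType) : SignType.sign ((s : SignType) : ℝ) = s := by
  cases s <;> simp

/-- Parameters of a 2 by 2 block with the signs of `T₂` and prescribed trace and determinant. -/
theorem block (t d : ℝ) : ∃ a h v : ℝ, 0 < a ∧ 0 < h ∧ 0 < v ∧ a - h = t ∧ v - a * h = d := by
  have h1 := abs_nonneg t
  have h2 := abs_nonneg d
  have h3 := le_abs_self t
  have h4 := neg_abs_le d
  refine ⟨|t| + |d| + 1, |t| + |d| + 1 - t, d + (|t| + |d| + 1) * (|t| + |d| + 1 - t),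
    by linarith, by linarith, ?_, by ring, by ring⟩
  nlinarith [mul_nonneg h1 h2, mul_nonneg (by linarith : (0:ℝ) ≤ |t| + |d|)
    (by linarith : (0:ℝ) ≤ |t| - t)]

/-- `B` is a superpattern of `A`. -/
def IsSuperpattern {n : ℕ} (ℬ 𝒜 : Matrix (Fin n) (Fin n) SignType) : Prop :=
  ∀ i j, 𝒜 i j ≠ 0 → ℬ i j = 𝒜 i j

theorem block_case (ℬ : Matrix (Fin 4) (Fin 4) SignType) (hℬ : IsSuperpattern ℬ T)
    (hz : (ℬ 0 2 = 0 ∧ ℬ 0 3 = 0 ∧ ℬ 1 2 = 0 ∧ ℬ 1 3 = 0) ∨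
      (ℬ 2 0 = 0 ∧ ℬ 2 1 = 0 ∧ ℬ 3 0 = 0 ∧ ℬ 3 1 = 0)) (τ : Fin 4 → ℝ) :
    ∃ A : Matrix (Fin 4) (Fin 4) ℝ, IsRealization ℬ A ∧ ∀ k, E k A = τ k := by
  obtain ⟨t1, d1, t2, d2, h0, h1, h2, h3⟩ := split_quartic τ
  obtain ⟨a, h, v, ha, hh, hv, e1, e2⟩ := block t1 d1
  obtain ⟨a', h', v', ha', hh', hv', e1', e2'⟩ := block t2 d2
  have b00 : ℬ 0 0 = 1 := hℬ 0 0 (by decide)
  have b01 : ℬ 0 1 = 1 := hℬ 0 1 (by decide)
  have b10 : ℬ 1 0 = -1 := hℬ 1 0 (by decide)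
  have b11 : ℬ 1 1 = -1 := hℬ 1 1 (by decide)
  have b22 : ℬ 2 2 = 1 := hℬ 2 2 (by decide)
  have b23 : ℬ 2 3 = 1 := hℬ 2 3 (by decide)
  have b32 : ℬ 3 2 = -1 := hℬ 3 2 (by decide)
  have b33 : ℬ 3 3 = -1 := hℬ 3 3 (by decide)
  refine ⟨!![a, 1, (ℬ 0 2 : SignType), (ℬ 0 3 : SignType);
    -v, -h, (ℬ 1 2 : SignType), (ℬ 1 3 : SignType);
    (ℬ 2 0 : SignType), (ℬ 2 1 : SignType), a', 1;
    (ℬ 3 0 : SignType), (ℬ 3 1 : SignType), -v', -h'], ?_, ?_⟩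
  · intro i j
    fin_cases i <;> fin_cases j <;>
      simp [sign_coe, b00, b01, b10, b11, b22, b23, b32, b33, sign_pos ha, sign_pos hh,
        sign_pos hv, sign_pos ha', sign_pos hh', sign_pos hv', Left.sign_neg]
  · rcases hz with ⟨z1, z2, z3, z4⟩ | ⟨z1, z2, z3, z4⟩
    · intro k
      fin_cases k
      · simp [E, z1, z2, z3, z4]; linarith
      · simp [E, z1, z2, z3, z4]
        rw [← h1, ← e1, ← e2, ← e1', ← e2']; ring
      · simp [E, z1, z2, z3, z4]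
        rw [← h2, ← e1, ← e2, ← e1', ← e2']; ring
      · simp [E, z1, z2, z3, z4]
        rw [← h3, ← e2, ← e2']; ring
    · intro k
      fin_cases k
      · simp [E, z1, z2, z3, z4]; linarith
      · simp [E, z1, z2, z3, z4]
        rw [← h1, ← e1, ← e2, ← e1', ← e2']; ring
      · simp [E, z1, z2, z3, z4]
        rw [← h2, ← e1, ← e2, ← e1', ← e2']; ring
      · simp [E, z1, z2, z3, z4]
        rw [← h3, ← e2, ← e2']; ring

theorem sign_ne (s : SignType) (h : s ≠ 0) : ∃ b : Bool, s = if b then 1 else -1 := by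
  cases s
  · exact absurd rfl h
  · exact ⟨false, rfl⟩
  · exact ⟨true, rfl⟩

theorem main_case (ℬ : Matrix (Fin 4) (Fin 4) SignType) (hℬ : IsSuperpattern ℬ T)
    (i j k l : Fin 2) (hx : ℬ (Fin.castAdd 2 i) (Fin.natAdd 2 j) ≠ 0)
    (hy : ℬ (Fin.natAdd 2 k) (Fin.castAdd 2 l) ≠ 0) (τ : Fin 4 → ℝ) :
    ∃ A : Matrix (Fin 4) (Fin 4) ℝ, IsRealization ℬ A ∧ ∀ k, E k A = τ k := by
  obtain ⟨s1, h1⟩ := sign_ne _ hx
  obtain ⟨s2, h2⟩ := sign_ne _ hy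
  refine NJ (mat i j k l s1 s2) (ps i j k l s1 s2) ℬ (table_E i j k l s1 s2)
    (table_J i j k l s1 s2) (table_pos i j k l s1 s2) ?_ τ
  intro a b hab
  rw [table_sign]
  have hs : SignType.sign (mat i j k l s1 s2 a b) ≠ 0 := by
    rw [Ne, sign_eq_zero_iff]; exact hab
  rw [table_sign] at hs
  unfold expd at hs ⊢
  split_ifs at hs ⊢ with c1 c2 c3 c4 c5
  · exact hℬ a b c1
  · rw [c2.1, c2.2, h1, if_pos c3]
  · rw [c2.1, c2.2, h1, if_neg c3]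
  · rw [c4.1, c4.2, h2, if_pos c5]
  · rw [c4.1, c4.2, h2, if_neg c5]
  · exact absurd rfl hs

end H125d.SAP
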